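import Pool.Agent.helper60.HT.Ellis

/-!
Module D (environment) for MP_e6cd9b_lc.
-/

set_option autoImplicit false
set_option linter.unusedSectionVars false

namespace Pool.Agent.helper18.HT

open Pool.Agent.helper79.HT Filter

/-! ### generic functions -/

theorem generic {Λ : Type} {R : Type} [Countable R] (𝓕 : R → Set (Finset Λ)) (v : R → Λ → Bool)
    (h : ∀ r, ∀ F0 : Finset Λ, ∃ F ∈ 𝓕 r, Disjoint F F0) :
    ∃ G : Λ → Bool, ∀ r, ∃ F ∈ 𝓕 r, ∀ l ∈ F, G l = v r l := by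
  classical
  rcases isEmpty_or_nonempty R with hR | hR
  · exact ⟨fun _ => false, fun r => (hR.false r).elim⟩
  obtain ⟨enc, henc⟩ := exists_surjective_nat R
  choose pick hpick hdisj using h
  let acc : ℕ → Finset Λ := fun n => Nat.rec ∅ (fun n A => A ∪ pick (enc n) A) n
  have hacc : ∀ n, acc (n + 1) = acc n ∪ pick (enc n) (acc n) := fun n => rfl
  let F : ℕ → Finset Λ := fun n => pick (enc n) (acc n)
  have hsub : ∀ m n, m < n → F m ⊆ acc n := by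
    intro m n hmn
    induction n, hmn using Nat.le_induction with
    | base => rw [hacc]; exact Finset.subset_union_right
    | succ n _ ih => rw [hacc]; exact ih.trans Finset.subset_union_left
  have huniq : ∀ m n l, l ∈ F m → l ∈ F n → m = n := by
    have key : ∀ m n l, m < n → l ∈ F m → l ∈ F n → False := by
      intro m n l hmn hm hn
      exact (Finset.disjoint_left.mp (hdisj (enc n) (acc n))) hn (hsub m n hmn hm)
    intro m n l hm hn
    rcases lt_trichotomy m n with h | h | h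
    · exact (key m n l h hm hn).elim
    · exact h
    · exact (key n m l h hn hm).elim
  refine ⟨fun l => if h : ∃ n, l ∈ F n then v (enc h.choose) l else false, fun r => ?_⟩
  obtain ⟨n, rfl⟩ := henc r
  refine ⟨F n, hpick _ _, fun l hl => ?_⟩
  have hex : ∃ n, l ∈ F n := ⟨n, hl⟩
  show (if h : ∃ n, l ∈ F n then v (enc h.choose) l else false) = v (enc n) l
  rw [dif_pos hex, huniq _ _ l hex.choose_spec hl]

/-! ### Boolean-valued ultrafilters -/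

section bu

variable {S B : Type} [CompleteBooleanAlgebra B]

lemma bv_true {P : Prop} (h : P) : (bv P : B) = ⊤ := by simp [bv, h]

lemma bv_false {P : Prop} (h : ¬ P) : (bv P : B) = ⊥ := by simp [bv, h]

lemma val_top (p : BU S B) : p.val (fun _ => ⊤) = ⊤ := p.const ⊤

lemma val_mono (p : BU S B) {A A' : S → B} (h : ∀ s, A s ≤ A' s) : p.val A ≤ p.val A' := by
  have h1 : A = fun s => A s ⊓ A' s := by
    funext s; exact (inf_eq_left.mpr (h s)).symm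
  rw [h1, p.inf]
  exact inf_le_right

lemma val_congr_on (p : BU S B) {M : Set S} (hM : p.val (fun s => bv (s ∈ M)) = ⊤)
    {A A' : S → B} (h : ∀ s ∈ M, A s = A' s) : p.val A = p.val A' := by
  have key : ∀ A : S → B, p.val A = p.val (fun s => A s ⊓ bv (s ∈ M)) := by
    intro A
    rw [p.inf, hM, inf_top_eq]
  rw [key A, key A']
  congr 1
  funext s
  by_cases hs : s ∈ M
  · rw [h s hs]
  · rw [bv_false hs, inf_bot_eq, inf_bot_eq]

lemma val_sup (p : BU S B) (A A' : S → B) : p.val (fun s => A s ⊔ A' s) = p.val A ⊔ p.val A' := by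
  have h1 : (fun s => A s ⊔ A' s) = fun s => ((A s)ᶜ ⊓ (A' s)ᶜ)ᶜ := by
    funext s
    rw [compl_inf, compl_compl, compl_compl]
  rw [h1, p.compl, p.inf, p.compl, p.compl, compl_inf, compl_compl, compl_compl]

/-- Boolean equivalence -/
def biff (a b : B) : B := (a ⊓ b) ⊔ (aᶜ ⊓ bᶜ)

lemma biff_eq_top {a b : B} : biff a b = ⊤ ↔ a = b := by
  constructor
  · intro h
    have h1 : a ⊓ bᶜ = ⊥ := by
      have : a ⊓ bᶜ = (a ⊓ bᶜ) ⊓ biff a b := by rw [h, inf_top_eq]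
      rw [this, biff, inf_sup_left]
      have e1 : a ⊓ bᶜ ⊓ (a ⊓ b) = ⊥ := by
        rw [inf_comm a b, inf_assoc, ← inf_assoc bᶜ, compl_inf_eq_bot, bot_inf_eq, inf_bot_eq]
      have e2 : a ⊓ bᶜ ⊓ (aᶜ ⊓ bᶜ) = ⊥ := by
        rw [inf_comm a bᶜ, inf_assoc, ← inf_assoc a, inf_compl_eq_bot, bot_inf_eq, inf_bot_eq]
      rw [e1, e2, sup_bot_eq]
    have h2 : aᶜ ⊓ b = ⊥ := by
      have : aᶜ ⊓ b = (aᶜ ⊓ b) ⊓ biff a b := by rw [h, inf_top_eq]
      rw [this, biff, inf_sup_left]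
      have e1 : aᶜ ⊓ b ⊓ (a ⊓ b) = ⊥ := by
        rw [inf_comm aᶜ b, inf_assoc, ← inf_assoc aᶜ, compl_inf_eq_bot, bot_inf_eq, inf_bot_eq]
      have e2 : aᶜ ⊓ b ⊓ (aᶜ ⊓ bᶜ) = ⊥ := by
        rw [inf_assoc, inf_comm aᶜ bᶜ, ← inf_assoc b, inf_compl_eq_bot, bot_inf_eq, inf_bot_eq]
      rw [e1, e2, sup_bot_eq]
    refine le_antisymm ?_ ?_
    · rw [← sdiff_eq] at h1
      exact sdiff_eq_bot_iff.mp h1
    · rw [inf_comm, ← sdiff_eq] at h2
      exact sdiff_eq_bot_iff.mp h2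
  · rintro rfl
    rw [biff, inf_idem, inf_idem, sup_compl_eq_top]

lemma val_biff (p : BU S B) (A : S → B) (b : B) :
    p.val (fun s => biff (A s) b) = biff (p.val A) b := by
  unfold biff
  rw [val_sup, p.inf, p.inf, p.compl, p.const, p.const]

end bu

/-! ### conditions -/

section conds

variable {Λ B : Type} [CompleteBooleanAlgebra B]

/-- conditions on the value of a pointer expressing `Typ` -/
def TG (c : Λ × ℕ → B) (K : ℕ → Bool) (E : ℕ → ℕ → Bool) (κ : Bool) (a : Λ) : Set (ℕ → B) :=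
  {G | G = (fun m => bv (K m = κ)) ∨ G = (fun m => c (a, m)) ∨
    (∃ a', a' ≠ a ∧ G = fun m => (c (a', m))ᶜ) ∨
    (∃ x, K x = κ ∧ G = fun m => biff (bv (E x m = true)) (c (a, x)))}

/-- all conditions -/
def Conds (c : Λ × ℕ → B) (K : ℕ → Bool) (E : ℕ → ℕ → Bool) (κ : Bool)
    (AA : Set (Set Blk)) (PP : Set (Blk → ℕ)) (a : Λ) : Set (Blk → B) :=
  {g | (∃ A ∈ AA, g = fun s => bv (s ∈ A)) ∨ (∃ φ ∈ PP, ∃ G ∈ TG c K E κ a, g = fun s => G (φ s))}

lemma typ_of (c : Λ × ℕ → B) (K : ℕ → Bool) (E : ℕ → ℕ → Bool) (κ : Bool) (a : Λ)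
    (p : BU Blk B) (φ : Blk → ℕ) (h : ∀ G ∈ TG c K E κ a, p.val (fun s => G (φ s)) = ⊤) :
    Typ K E p φ κ (fun n => c (a, n)) {T | ∃ a', a' ≠ a ∧ T = fun n => c (a', n)} := by
  refine ⟨h _ (Or.inl rfl), h _ (Or.inr (Or.inl rfl)), ?_, ?_⟩
  · rintro T' ⟨a', ha', rfl⟩
    exact h _ (Or.inr (Or.inr (Or.inl ⟨a', ha', rfl⟩)))
  · intro x hx
    have h1 := h _ (Or.inr (Or.inr (Or.inr ⟨x, hx, rfl⟩)))
    exact biff_eq_top.mp ((val_biff p (fun s => bv (E x (φ s) = true)) _).symm.trans h1)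

/-- good value of a pointer -/
def Good (K : ℕ → Bool) (E : ℕ → ℕ → Bool) (κ : Bool) (N : ℕ) (ε : ℕ → Bool) (m : ℕ) : Prop :=
  N ≤ m ∧ K m = κ ∧ ∀ x < N, E x m = ε x

/-- the literal function used at level `N` -/
def LitOK (a : Λ) (N : ℕ) (ε : Λ × ℕ → Bool) : Prop :=
  ∀ m, N ≤ m → ε (a, m) = true ∧ ∀ a', a' ≠ a → ε (a', m) = false

lemma cond_single (c : Λ × ℕ → B) (K : ℕ → Bool) (E : ℕ → ℕ → Bool) (κ : Bool)
    (AA : Set (Set Blk)) (PP : Set (Blk → ℕ)) (a : Λ) (g : Blk → B)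
    (hg : g ∈ Conds c K E κ AA PP a) :
    ∃ (Φ : List (Blk → ℕ)) (𝒜 : List (Set Blk)) (N₀ : ℕ) (l : Blk → Finset (Λ × ℕ)),
      (∀ φ ∈ Φ, φ ∈ PP) ∧ (∀ A ∈ 𝒜, A ∈ AA) ∧
      ∀ (N : ℕ) (ε : Λ × ℕ → Bool), N₀ ≤ N → LitOK a N ε → ∀ s, (∀ A ∈ 𝒜, s ∈ A) →
        (∀ φ ∈ Φ, Good K E κ N (fun x => ε (a, x)) (φ s)) → (l s).inf (lit c ε) ≤ g s := by
  rcases hg with ⟨A, hA, rfl⟩ | ⟨φ, hφ, G, hG, rfl⟩
  · refine ⟨[], [A], 0, fun _ => ∅, by simp, by simpa using hA, ?_⟩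
    intro N ε _ _ s hs _
    have : s ∈ A := hs A (by simp)
    simp only [bv_true this, le_top]
  · rcases hG with rfl | rfl | ⟨a', ha', rfl⟩ | ⟨x, hx, rfl⟩
    · refine ⟨[φ], [], 0, fun _ => ∅, by simpa using hφ, by simp, ?_⟩
      intro N ε _ _ s _ hs
      have h1 := hs φ (by simp)
      simp only [bv_true h1.2.1, le_top]
    · refine ⟨[φ], [], 0, fun s => {(a, φ s)}, by simpa using hφ, by simp, ?_⟩
      intro N ε _ hε s _ hs
      have h1 := hs φ (by simp)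
      rw [Finset.inf_singleton, lit, if_pos (hε _ h1.1).1]
    · refine ⟨[φ], [], 0, fun s => {(a', φ s)}, by simpa using hφ, by simp, ?_⟩
      intro N ε _ hε s _ hs
      have h1 := hs φ (by simp)
      rw [Finset.inf_singleton, lit, if_neg (by rw [(hε _ h1.1).2 a' ha']; simp)]
    · refine ⟨[φ], [], x + 1, fun s => {(a, x)}, by simpa using hφ, by simp, ?_⟩
      intro N ε hN hε s _ hs
      have h1 := hs φ (by simp)
      have h2 := h1.2.2 x (by omega)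
      rw [Finset.inf_singleton, lit]
      show _ ≤ biff (bv (E x (φ s) = true)) (c (a, x))
      by_cases h3 : ε (a, x) = true
      · rw [if_pos h3, bv_true (h2.trans h3), biff]
        simp
      · rw [if_neg h3, bv_false (by rw [h2]; exact h3), biff]
        simp

lemma cond_finset (c : Λ × ℕ → B) (K : ℕ → Bool) (E : ℕ → ℕ → Bool) (κ : Bool)
    (AA : Set (Set Blk)) (PP : Set (Blk → ℕ)) (a : Λ) (F : Finset (Blk → B))
    (hF : (↑F : Set (Blk → B)) ⊆ Conds c K E κ AA PP a) :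
    ∃ (Φ : List (Blk → ℕ)) (𝒜 : List (Set Blk)) (N₀ : ℕ) (l : Blk → Finset (Λ × ℕ)),
      (∀ φ ∈ Φ, φ ∈ PP) ∧ (∀ A ∈ 𝒜, A ∈ AA) ∧
      ∀ (N : ℕ) (ε : Λ × ℕ → Bool), N₀ ≤ N → LitOK a N ε → ∀ s, (∀ A ∈ 𝒜, s ∈ A) →
        (∀ φ ∈ Φ, Good K E κ N (fun x => ε (a, x)) (φ s)) →
          (l s).inf (lit c ε) ≤ (F.inf id) s := by
  classical
  induction F using Finset.induction_on with
  | empty => exact ⟨[], [], 0, fun _ => ∅, by simp, by simp, by intros; simp⟩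
  | insert g F hgF ih =>
    obtain ⟨Φ, 𝒜, N₀, l, h1, h2, h3⟩ := ih (fun x hx => hF (by simp at hx ⊢; right; exact hx))
    obtain ⟨Φ', 𝒜', N₀', l', h1', h2', h3'⟩ := cond_single c K E κ AA PP a g (hF (by simp))
    refine ⟨Φ ++ Φ', 𝒜 ++ 𝒜', max N₀ N₀', fun s => l s ∪ l' s, ?_, ?_, ?_⟩
    · intro φ hφ
      rcases List.mem_append.mp hφ with h | h
      · exact h1 _ h
      · exact h1' _ h
    · intro A hA
      rcases List.mem_append.mp hA with h | h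
      · exact h2 _ h
      · exact h2' _ h
    · intro N ε hN hε s hs hs'
      rw [Finset.inf_union, Finset.inf_insert]
      have e1 := h3 N ε (le_of_max_le_left hN) hε s
        (fun A hA => hs A (List.mem_append_left _ hA))
        (fun φ hφ => hs' φ (List.mem_append_left _ hφ))
      have e2 := h3' N ε (le_of_max_le_right hN) hε s
        (fun A hA => hs A (List.mem_append_right _ hA))
        (fun φ hφ => hs' φ (List.mem_append_right _ hφ))
      show _ ≤ g s ⊓ (F.inf id) s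
      exact le_inf (inf_le_right.trans e2) (inf_le_left.trans e1)

theorem conds_nonempty (c : Λ × ℕ → B) (hc : Cohen c) (K : ℕ → Bool) (E : ℕ → ℕ → Bool) (κ : Bool)
    (AA : Set (Set Blk)) (PP : Set (Blk → ℕ))
    (hgen : ∀ (Φ : List (Blk → ℕ)) (𝒜 : List (Set Blk)), (∀ φ ∈ Φ, φ ∈ PP) →
      (∀ A ∈ 𝒜, A ∈ AA) → ∀ (N : ℕ) (ε : ℕ → Bool), ∃ s, (∀ A ∈ 𝒜, s ∈ A) ∧
        ∀ φ ∈ Φ, Good K E κ N ε (φ s)) (a : Λ) :
    (VC (Conds c K E κ AA PP a)).Nonempty := by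
  classical
  refine Pool.Agent.helper60.HT.vc_nonempty _ fun F hF b hb => ?_
  obtain ⟨Φ, 𝒜, N₀, l, h1, h2, h3⟩ := cond_finset c K E κ AA PP a F hF
  obtain ⟨F₁, ε₁, hF₁⟩ := hc.2 b hb
  set N := max N₀ (F₁.sup (fun x => x.2 + 1)) with hN
  set ε : Λ × ℕ → Bool := fun x => if x.2 < N then ε₁ x else decide (x.1 = a) with hε
  have hlit : LitOK a N ε := by
    intro m hm
    have : ¬ m < N := by omega
    refine ⟨by simp [hε, this], fun a' ha' => by simp [hε, this, ha']⟩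
  obtain ⟨s, hs1, hs2⟩ := hgen Φ 𝒜 h1 h2 N (fun x => ε (a, x))
  refine ⟨s, fun hbot => ?_⟩
  have h4 := h3 N ε (le_max_left _ _) hlit s hs1 hs2
  have h5 : F₁.inf (lit c ε) ≤ b := by
    refine le_trans (le_of_eq ?_) hF₁
    refine Finset.inf_congr rfl fun x hx => ?_
    have : x.2 < N := by
      have h6 : x.2 + 1 ≤ F₁.sup (fun x => x.2 + 1) :=
        Finset.le_sup (f := fun x : Λ × ℕ => x.2 + 1) hx
      have h7 : F₁.sup (fun x => x.2 + 1) ≤ N := le_max_right _ _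
      omega
    simp only [lit, hε, this, if_true]
  refine hc.1 (F₁ ∪ l s) ε ?_
  rw [Finset.inf_union, ← le_bot_iff]
  exact (inf_le_inf h5 h4).trans (le_of_eq hbot)

end conds

/-! ### countable closure -/

section closure

/-- `{s | ∀ᶠ t, s * t ∈ A}` -/
def circ (q : Ultrafilter Blk) (A : Set Blk) : Set Blk := {s | ∀ᶠ t in (q : Filter Blk), s * t ∈ A}

/-- `{t | s * t ∈ A}` -/
def sh (A : Set Blk) (s : Blk) : Set Blk := {t | s * t ∈ A}

/-- closure of a family of sets under `circ` and `sh` -/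
inductive Cl (q : Ultrafilter Blk) (A1 : Set (Set Blk)) : Set Blk → Prop
  | base (A : Set Blk) : A ∈ A1 → Cl q A1 A
  | circ (A : Set Blk) : Cl q A1 A → Cl q A1 (circ q A)
  | sh (A : Set Blk) (s : Blk) : Cl q A1 A → s ∈ Pool.Agent.helper18.HT.circ q A →
      Cl q A1 (sh A s)

lemma cl_mem {q : Ultrafilter Blk} (hq : IdemQ q) {A1 : Set (Set Blk)} (h1 : ∀ A ∈ A1, A ∈ q)
    {A : Set Blk} (h : Cl q A1 A) : A ∈ q := by
  induction h with
  | base A hA => exact h1 A hA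
  | circ A _ ih => exact (hq.2 (fun s => s ∈ A)).mpr ih
  | sh A s _ hs _ => exact hs

lemma cl_countable (q : Ultrafilter Blk) {A1 : Set (Set Blk)} (h1 : A1.Countable) :
    {A | Cl q A1 A}.Countable := by
  have : Countable A1 := h1.to_subtype
  let op : Option Blk → Set Blk → Set Blk := fun o A => match o with
    | none => circ q A
    | some s => sh A s
  refine (Set.countable_range (fun x : List (Option Blk) × A1 => x.1.foldr op x.2.1)).mono ?_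
  intro A hA
  induction hA with
  | base A hA => exact ⟨([], ⟨A, hA⟩), rfl⟩
  | circ A _ ih =>
    obtain ⟨⟨l, A'⟩, rfl⟩ := ih
    exact ⟨(none :: l, A'), rfl⟩
  | sh A s _ hs ih =>
    obtain ⟨⟨l, A'⟩, rfl⟩ := ih
    exact ⟨(some s :: l, A'), rfl⟩

/-- the set of `s` with `X (s * ·)` nonprincipal -/
def nz (q : Ultrafilter Blk) (X : Blk → ℕ) : Set Blk :=
  {s | ∀ n, ∀ᶠ t in (q : Filter Blk), n ≤ X (s * t)}

/-- star version -/
def nzs (q : Ultrafilter Blk) (X : Blk → ℕ) : Set Blk := nz q X ∩ circ q (nz q X)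

lemma nzs_circ {q : Ultrafilter Blk} (hq : IdemQ q) {X : Blk → ℕ} {s : Blk} (hs : s ∈ nzs q X) :
    s ∈ circ q (nzs q X) := by
  have h1 : ∀ᶠ t in (q : Filter Blk), s * t ∈ nz q X := hs.2
  have h2 : ∀ᶠ t in (q : Filter Blk), ∀ᶠ t' in (q : Filter Blk), s * (t * t') ∈ nz q X :=
    (hq.2 (fun t => s * t ∈ nz q X)).mpr h1
  show ∀ᶠ t in (q : Filter Blk), s * t ∈ nzs q X
  filter_upwards [h1, h2] with t ht1 ht2
  refine ⟨ht1, ?_⟩
  show ∀ᶠ t' in (q : Filter Blk), (s * t) * t' ∈ nz q X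
  simpa only [mul_assoc] using ht2

lemma nzs_mem {q : Ultrafilter Blk} (hq : IdemQ q) {X : Blk → ℕ} (h : NonMin q X) :
    nzs q X ∈ q := by
  have h1 : nz q X ∈ q := h
  have h2 : ∀ᶠ s in (q : Filter Blk), s ∈ circ q (nz q X) :=
    (hq.2 (fun t => t ∈ nz q X)).mpr h1
  exact Filter.inter_mem h1 h2

/-- the set of `s` with `X (s * t) = X s` for most `t` -/
def mn (q : Ultrafilter Blk) (X : Blk → ℕ) : Set Blk :=
  {s | ∀ᶠ t in (q : Filter Blk), X (s * t) = X s}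

end closure

/-! ### the generic `K`, `E` -/

section gen

/-- coordinates of `(K, E)` used by a value `z` at level `N` -/
def coord (N : ℕ) (z : ℕ) : Finset (ℕ ⊕ ℕ × ℕ) :=
  {Sum.inl z} ∪ (Finset.range N).image (fun x => Sum.inr (x, z))

/-- prescribed values -/
def pres (κ : Bool) (ε : ℕ → Bool) : ℕ ⊕ ℕ × ℕ → Bool
  | Sum.inl _ => κ
  | Sum.inr x => ε x.1

lemma coord_disj {N z : ℕ} {F0 : Finset (ℕ ⊕ ℕ × ℕ)}
    (h : ∀ l ∈ F0, (Sum.elim (fun m => m) (fun x : ℕ × ℕ => x.2) l) < z) :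
    Disjoint (coord N z) F0 := by
  classical
  rw [Finset.disjoint_left]
  intro l hl hl'
  have h1 := h l hl'
  simp only [coord, Finset.mem_union, Finset.mem_singleton, Finset.mem_image,
    Finset.mem_range] at hl
  rcases hl with rfl | ⟨x, _, rfl⟩ <;> simp at h1

lemma good_of_coord {G : ℕ ⊕ ℕ × ℕ → Bool} {N : ℕ} {κ : Bool} {ε ε' : ℕ → Bool} {z : ℕ}
    (hz : N ≤ z) (hε : ∀ x < N, ε' x = ε x)
    (h : ∀ l ∈ coord N z, G l = pres κ ε' l) :
    Good (fun m => G (Sum.inl m)) (fun x m => G (Sum.inr (x, m))) κ N ε z := by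
  refine ⟨hz, ?_, fun x hx => ?_⟩
  · exact h (Sum.inl z) (by simp [coord])
  · have := h (Sum.inr (x, z)) (by simp [coord, hx])
    show G (Sum.inr (x, z)) = ε x
    rw [this, ← hε x hx]
    rfl

theorem generic_KE (q : Ultrafilter Blk) (AA : Set (Set Blk)) (hAA : AA.Countable)
    (hAq : ∀ A ∈ AA, A ∈ q) (PP : Set (Blk → ℕ)) (hPP : PP.Countable)
    (hPq : ∀ φ ∈ PP, ∀ n, ∀ᶠ t in (q : Filter Blk), n ≤ φ t)
    (Fr : Set (Set ℕ)) (hFr : Fr.Countable) (hFri : ∀ X ∈ Fr, X.Infinite) :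
    ∃ (K : ℕ → Bool) (E : ℕ → ℕ → Bool),
      (∀ X ∈ Fr, ∀ (N : ℕ) (κ : Bool) (ε : ℕ → Bool), ∃ z ∈ X, Good K E κ N ε z) ∧
      ∀ (κ : Bool) (Φ : List (Blk → ℕ)) (𝒜 : List (Set Blk)), (∀ φ ∈ Φ, φ ∈ PP) →
      (∀ A ∈ 𝒜, A ∈ AA) → ∀ (N : ℕ) (ε : ℕ → Bool), ∃ s, (∀ A ∈ 𝒜, s ∈ A) ∧
        ∀ φ ∈ Φ, Good K E κ N ε (φ s) := by
  classical
  have i1 : Countable AA := hAA.to_subtype
  have i2 : Countable PP := hPP.to_subtype
  have i3 : Countable Fr := hFr.to_subtype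
  let R := (Fr ⊕ (List PP × List AA)) × ℕ × Bool × List Bool
  let 𝓕 : R → Set (Finset (ℕ ⊕ ℕ × ℕ)) := fun r => match r with
    | (Sum.inl X, N, _, _) => {F | ∃ z ∈ X.1, N ≤ z ∧ F = coord N z}
    | (Sum.inr (Φ, 𝒜), N, _, _) => {F | ∃ s, (∀ A ∈ 𝒜, s ∈ A.1) ∧ (∀ φ ∈ Φ, N ≤ φ.1 s) ∧
        F = (Φ.toFinset).biUnion (fun φ => coord N (φ.1 s))}
  let v : R → ℕ ⊕ ℕ × ℕ → Bool := fun r => pres r.2.2.1 (fun x => r.2.2.2.getD x false)
  obtain ⟨G, hG⟩ := generic 𝓕 v (by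
    rintro ⟨t, N, κ, l⟩ F0
    obtain ⟨M, hM⟩ : ∃ M, ∀ l ∈ F0, (Sum.elim (fun m => m) (fun x : ℕ × ℕ => x.2) l) < M :=
      ⟨F0.sup (fun l => (Sum.elim (fun m => m) (fun x : ℕ × ℕ => x.2) l) + 1), fun l hl => by
        have := Finset.le_sup (f := fun l =>
          (Sum.elim (fun m => m) (fun x : ℕ × ℕ => x.2) l) + 1) hl
        exact this⟩
    rcases t with X | ⟨Φ, 𝒜⟩
    · obtain ⟨z, hzX, hz⟩ := (hFri X.1 X.2).exists_gt (max M N)
      refine ⟨coord N z, ⟨z, hzX, ?_, rfl⟩, coord_disj fun l hl => ?_⟩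
      · exact ((le_max_right _ _).trans_lt hz).le
      · exact (hM l hl).trans_le ((le_max_left _ _).trans hz.le)
    · have h1 : ∀ᶠ s in (q : Filter Blk), (∀ A ∈ 𝒜, s ∈ A.1) ∧ (∀ φ ∈ Φ, max M N ≤ φ.1 s) := by
        refine Filter.Eventually.and ?_ ?_
        · have : ∀ᶠ s in (q : Filter Blk), ∀ A ∈ 𝒜.toFinset, s ∈ A.1 :=
            (Filter.eventually_all_finset _).mpr fun A _ => hAq A.1 A.2
          simpa using this
        · have : ∀ᶠ s in (q : Filter Blk), ∀ φ ∈ Φ.toFinset, max M N ≤ φ.1 s :=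
            (Filter.eventually_all_finset _).mpr fun φ _ => hPq φ.1 φ.2 _
          simpa using this
      obtain ⟨s, hs1, hs2⟩ := h1.exists
      refine ⟨_, ⟨s, hs1, fun φ hφ => (le_max_right _ _).trans (hs2 φ hφ), rfl⟩, ?_⟩
      rw [Finset.disjoint_biUnion_left]
      intro φ hφ
      refine coord_disj fun l hl => ?_
      exact (hM l hl).trans_le ((le_max_left _ _).trans (hs2 φ (by simpa using hφ))))
  have hlist : ∀ (N : ℕ) (ε : ℕ → Bool), ∀ x < N,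
      ((List.range N).map ε).getD x false = ε x := by
    intro N ε x hx
    simp [List.getD, hx]
  refine ⟨fun m => G (Sum.inl m), fun x m => G (Sum.inr (x, m)), ?_, ?_⟩
  · intro X hX N κ ε
    obtain ⟨F, ⟨z, hzX, hz, rfl⟩, hF⟩ := hG (Sum.inl ⟨X, hX⟩, N, κ, (List.range N).map ε)
    exact ⟨z, hzX, good_of_coord hz (hlist N ε) hF⟩
  · intro κ Φ 𝒜 hΦ h𝒜 N ε
    obtain ⟨F, ⟨s, hs1, hs2, rfl⟩, hF⟩ :=
      hG (Sum.inr (Φ.pmap (fun φ h => ⟨φ, h⟩) hΦ, 𝒜.pmap (fun A h => ⟨A, h⟩) h𝒜), N, κ,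
        (List.range N).map ε)
    refine ⟨s, fun A hA => ?_, fun φ hφ => ?_⟩
    · exact hs1 ⟨A, h𝒜 A hA⟩ (List.mem_pmap.mpr ⟨A, hA, rfl⟩)
    · have hmem : (⟨φ, hΦ φ hφ⟩ : PP) ∈ Φ.pmap (fun φ h => (⟨φ, h⟩ : PP)) hΦ :=
        List.mem_pmap.mpr ⟨φ, hφ, rfl⟩
      refine good_of_coord (hs2 ⟨φ, hΦ φ hφ⟩ hmem) (hlist N ε) fun l hl => hF l ?_
      rw [Finset.mem_biUnion]
      exact ⟨⟨φ, hΦ φ hφ⟩, by simpa using hmem, hl⟩

end gen

/-! ### the environment -/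

section main

theorem env (q : Ultrafilter Blk) (hq : IdemQ q)
    (A0 : Set (Set Blk)) (hA0 : A0.Countable) (hAq : ∀ A ∈ A0, A ∈ q)
    (Z : Set (Blk → ℕ)) (hZ : Z.Countable) (hZq : ∀ X ∈ Z, ∀ n, ∀ᶠ h in q, n ≤ X h)
    (Fr : Set (Set ℕ)) (hFr : Fr.Countable) (hFri : ∀ X ∈ Fr, X.Infinite) :
    ∃ (K : ℕ → Bool) (E : ℕ → ℕ → Bool),
      (∀ X ∈ Fr, ∀ (N : ℕ) (κ : Bool) (ε : ℕ → Bool),
        ∃ z ∈ X, N ≤ z ∧ K z = κ ∧ ∀ x < N, E x z = ε x) ∧
      ∀ (I J : Type) [Nonempty J] (B : Type) [CompleteBooleanAlgebra B] (c : (I ⊕ J) × ℕ → B),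
        Cohen c → ∃ e : I → J → BU Blk B,
          (∀ i i' j, e i j * e i' j = e i j) ∧ (∀ i j j', e i j * e i j' = e i j') ∧
          (∀ i j, ∀ A ∈ A0, (e i j).val (fun h => bv (h ∈ A)) = ⊤) ∧
          (∀ i j, ∀ X ∈ Z, MinLike q X → Typ K E (e i j) X false (fun n => c (Sum.inl i, n))
            {T | ∃ i', i' ≠ i ∧ T = fun n => c (Sum.inl i', n)}) ∧
          (∀ i j, ∀ X ∈ Z, NonMin q X → Typ K E (e i j) X true (fun n => c (Sum.inr j, n))
            {T | ∃ j', j' ≠ j ∧ T = fun n => c (Sum.inr j', n)}) := by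
  classical
  -- the countable families
  set A1 : Set (Set Blk) := A0 ∪ (⋃ X ∈ {X | X ∈ Z ∧ MinLike q X},
      ({mn q X} ∪ ⋃ s ∈ mn q X, {{t | X (s * t) = X s}})) ∪
      ((fun X => nzs q X) '' {X | X ∈ Z ∧ NonMin q X}) with hA1
  have hZ1 : {X | X ∈ Z ∧ MinLike q X}.Countable := hZ.mono fun X hX => hX.1
  have hZ2 : {X | X ∈ Z ∧ NonMin q X}.Countable := hZ.mono fun X hX => hX.1
  have hA1c : A1.Countable := by
    refine (hA0.union ?_).union (hZ2.image _)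
    refine hZ1.biUnion fun X _ => ?_
    refine (Set.countable_singleton _).union ?_
    exact (Set.to_countable _).biUnion fun s _ => Set.countable_singleton _
  have hA1q : ∀ A ∈ A1, A ∈ q := by
    rintro A ((hA | hA) | ⟨X, hX, rfl⟩)
    · exact hAq A hA
    · simp only [Set.mem_iUnion] at hA
      obtain ⟨X, hX, hA⟩ := hA
      rcases hA with hA | hA
      · rw [Set.mem_singleton_iff] at hA
        rw [hA]
        exact hX.2
      · simp only [Set.mem_iUnion, Set.mem_singleton_iff] at hA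
        obtain ⟨s, hs, rfl⟩ := hA
        exact hs
    · exact nzs_mem hq hX.2
  set AA : Set (Set Blk) := {A | Cl q A1 A} with hAA
  have hAAc : AA.Countable := cl_countable q hA1c
  have hAAq : ∀ A ∈ AA, A ∈ q := fun A hA => cl_mem hq hA1q hA
  have hcirc : ∀ A ∈ AA, circ q A ∈ AA := fun A hA => Cl.circ A hA
  have hsh : ∀ A ∈ AA, ∀ s ∈ circ q A, sh A s ∈ AA := fun A hA s hs => Cl.sh A s hA hs
  have hbase : ∀ A ∈ A1, A ∈ AA := fun A hA => Cl.base A hA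
  set P1 : Set (Blk → ℕ) := {X | X ∈ Z ∧ MinLike q X} with hP1
  set P2 : Set (Blk → ℕ) := ⋃ X ∈ {X | X ∈ Z ∧ NonMin q X}, ⋃ s ∈ nzs q X,
    {fun t => X (s * t)} with hP2
  have hP1c : P1.Countable := hZ1
  have hP2c : P2.Countable := by
    refine hZ2.biUnion fun X _ => ?_
    exact (Set.to_countable _).biUnion fun s _ => Set.countable_singleton _
  have hP2m : ∀ X ∈ Z, NonMin q X → ∀ s ∈ nzs q X, (fun t => X (s * t)) ∈ P2 := by
    intro X hX hX' s hs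
    simp only [hP2, Set.mem_iUnion, Set.mem_singleton_iff]
    exact ⟨X, ⟨hX, hX'⟩, s, hs, rfl⟩
  have hPq : ∀ φ ∈ P1 ∪ P2, ∀ n, ∀ᶠ t in (q : Filter Blk), n ≤ φ t := by
    rintro φ (hφ | hφ) n
    · exact hZq φ hφ.1 n
    · simp only [hP2, Set.mem_iUnion, Set.mem_singleton_iff] at hφ
      obtain ⟨X, hX, s, hs, rfl⟩ := hφ
      exact hs.1 n
  obtain ⟨K, E, hKE1, hKE2⟩ := generic_KE q AA hAAc hAAq (P1 ∪ P2) (hP1c.union hP2c) hPq Fr hFr
    hFri
  refine ⟨K, E, fun X hX N κ ε => ?_, ?_⟩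
  · obtain ⟨z, hz, h1, h2, h3⟩ := hKE1 X hX N κ ε
    exact ⟨z, hz, h1, h2, h3⟩
  intro I J _ B _ c hc
  -- membership of the countable families
  have hmnA : ∀ X ∈ P1, mn q X ∈ AA := by
    intro X hX
    refine hbase _ (Or.inl (Or.inr ?_))
    simp only [Set.mem_iUnion]
    exact ⟨X, hX, Or.inl rfl⟩
  have hmnB : ∀ X ∈ P1, ∀ s ∈ mn q X, {t | X (s * t) = X s} ∈ AA := by
    intro X hX s hs
    refine hbase _ (Or.inl (Or.inr ?_))
    simp only [Set.mem_iUnion]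
    refine ⟨X, hX, Or.inr ?_⟩
    simp only [Set.mem_iUnion, Set.mem_singleton_iff]
    exact ⟨s, hs, rfl⟩
  have hnz : ∀ X ∈ Z, NonMin q X → nzs q X ∈ AA := fun X hX hX' =>
    hbase _ (Or.inr ⟨X, ⟨hX, hX'⟩, rfl⟩)
  -- the semigroup `S0`
  set S0 : Set (BU Blk B) := VC {g | ∃ A ∈ AA, g = fun s => bv (s ∈ A)} with hS0
  have hS0v : ∀ p ∈ S0, ∀ A ∈ AA, p.val (fun s => bv (s ∈ A)) = ⊤ :=
    fun p hp A hA => hp _ ⟨A, hA, rfl⟩
  have hmul : ∀ p ∈ S0, ∀ p' ∈ S0, p * p' ∈ S0 := by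
    rintro p hp p' hp' g ⟨A, hA, rfl⟩
    rw [BU.mul_val]
    rw [val_congr_on p (hS0v p hp _ (hcirc A hA)) (A' := fun _ => ⊤)]
    · exact val_top p
    · intro s hs
      exact hS0v p' hp' _ (hsh A hA s hs)
  have hRsub : ∀ κ PP a, VC (Conds c K E κ AA PP a) ⊆ S0 := by
    rintro κ PP a p hp g ⟨A, hA, rfl⟩
    exact hp _ (Or.inl ⟨A, hA, rfl⟩)
  have hpick : ∀ {κ PP a} {p : BU Blk B}, p ∈ VC (Conds c K E κ AA PP a) → ∀ φ ∈ PP,
      ∀ G ∈ TG c K E κ a, p.val (fun s => G (φ s)) = ⊤ := by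
    intro κ PP a p hp φ hφ G hG
    exact hp _ (Or.inr ⟨φ, hφ, G, hG, rfl⟩)
  obtain ⟨e, he1, he2, he3⟩ := Pool.Agent.helper60.HT.matrix (I := I) (J := J) S0 ⟨_, rfl⟩ hmul
    (fun i => VC (Conds c K E false AA P1 (Sum.inl i)))
    (fun j => VC (Conds c K E true AA P2 (Sum.inr j)))
    (fun i => ⟨_, rfl⟩)
    (fun i => conds_nonempty c hc K E false AA P1
      (fun Φ 𝒜 hΦ h𝒜 N ε => hKE2 false Φ 𝒜 (fun φ hφ => Or.inl (hΦ φ hφ)) h𝒜 N ε) _)
    (fun i => hRsub _ _ _)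
    (by
      rintro i p hp p' hp' g (⟨A, hA, rfl⟩ | ⟨X, hX, G, hG, rfl⟩)
      · exact hmul p (hRsub _ _ _ hp) p' hp' _ ⟨A, hA, rfl⟩
      · rw [BU.mul_val]
        rw [val_congr_on p (hS0v p (hRsub _ _ _ hp) _ (hmnA X hX)) (A' := fun s => G (X s))]
        · exact hpick hp X hX G hG
        · intro s hs
          have h1 := hS0v p' hp' _ (hmnB X hX s hs)
          rw [val_congr_on p' h1 (A' := fun _ => G (X s))]
          · exact p'.const _
          · intro t ht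
            show G (X (s * t)) = G (X s)
            rw [show X (s * t) = X s from ht])
    (fun j => ⟨_, rfl⟩)
    (fun j => conds_nonempty c hc K E true AA P2
      (fun Φ 𝒜 hΦ h𝒜 N ε => hKE2 true Φ 𝒜 (fun φ hφ => Or.inr (hΦ φ hφ)) h𝒜 N ε) _)
    (fun j => hRsub _ _ _)
    (by
      rintro j p hp p' hp' g (⟨A, hA, rfl⟩ | ⟨φ, hφ, G, hG, rfl⟩)
      · exact hmul p' hp' p (hRsub _ _ _ hp) _ ⟨A, hA, rfl⟩
      · have hφ' := hφ
        simp only [hP2, Set.mem_iUnion, Set.mem_singleton_iff] at hφ'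
        obtain ⟨X, hX, s, hs, rfl⟩ := hφ'
        have h1 : sh (nzs q X) s ∈ AA := hsh _ (hnz X hX.1 hX.2) s (nzs_circ hq hs)
        rw [BU.mul_val]
        rw [val_congr_on p' (hS0v p' hp' _ h1) (A' := fun _ => ⊤)]
        · exact val_top p'
        · intro t ht
          have h2 := hpick hp _ (hP2m X hX.1 hX.2 (s * t) ht) G hG
          simpa only [mul_assoc] using h2)
  have hidem : ∀ i j, e i j * e i j = e i j := fun i j => he2 i i j
  refine ⟨e, he2, he3, fun i j A hA => ?_, fun i j X hX hX' => ?_, fun i j X hX hX' => ?_⟩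
  · exact hS0v _ (hRsub _ _ _ (he1 i j).1) A (hbase A (Or.inl (Or.inl hA)))
  · have h1 := typ_of c K E false (Sum.inl i) (e i j) X
      (hpick (he1 i j).1 X ⟨hX, hX'⟩)
    refine ⟨h1.1, h1.2.1, ?_, h1.2.2.2⟩
    rintro T' ⟨i', hi', rfl⟩
    exact h1.2.2.1 _ ⟨Sum.inl i', by simpa using hi', rfl⟩
  · have h1 := typ_of c K E true (Sum.inr j) (e i j) X (by
      intro G hG
      rw [← hidem i j, BU.mul_val]
      rw [val_congr_on (e i j) (hS0v _ (hRsub _ _ _ (he1 i j).1) _ (hnz X hX hX'))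
        (A' := fun _ => ⊤)]
      · exact val_top _
      · intro s hs
        exact hpick (he1 i j).2 _ (hP2m X hX hX' s hs) G hG)
    refine ⟨h1.1, h1.2.1, ?_, h1.2.2.2⟩
    rintro T' ⟨j', hj', rfl⟩
    exact h1.2.2.1 _ ⟨Sum.inr j', by simpa using hj', rfl⟩

end main

end Pool.Agent.helper18.HT
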